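import Pool.Agent.Lib.MP_4f2bc5_co.Mix

/-!
# Types of finite self-dual regular 4-polytopes

For integers `p, q` there is a finite self-dual regular 4-polytope (equivalently a finite string
C-group of rank 4 with a group automorphism reversing its generators) of type `{p,q,p}` if and
only if `p ≥ 2` and `q ≥ 2`.
-/

set_option autoImplicit false

namespace Pool.Agent.Results.MP_4f2bc5_co.SelfDualTypes

open Pool.Agent.Lib.MP_4f2bc5_co Subgroup

theorem order_ge {G : Type} [Group G] [Finite G] {r : Fin 4 → G} (h : IsStringC r) (i j : Fin 4)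
    (hij : i ≠ j) : 2 ≤ orderOf (r i * r j) := by
  have h1 : 0 < orderOf (r i * r j) := orderOf_pos _
  by_contra hcon
  have h2 : orderOf (r i * r j) = 1 := by omega
  rw [orderOf_eq_one_iff] at h2
  have h3 : r i = r j := by
    have h4 := (h.involution j).2
    rw [pow_two] at h4
    exact mul_right_cancel (h2.trans h4.symm)
  have h5 := h.inter {i} {j}
  have h6 : ({i} : Set (Fin 4)) ∩ {j} = ∅ := by
    ext k
    simp only [Set.mem_inter_iff, Set.mem_singleton_iff, Set.mem_empty_iff_false, iff_false, not_and]
    intro hk hk2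
    exact hij (hk.symm.trans hk2)
  rw [h6, Set.image_singleton, Set.image_singleton, Set.image_empty, Subgroup.closure_empty, h3, inf_idem] at h5
  have h7 : r j ∈ closure ({r j} : Set G) := subset_closure rfl
  rw [h5, mem_bot] at h7
  exact (h.involution j).1 h7

theorem result (p q : ℕ) :
    (∃ (G : Type) (_ : Group G) (_ : Finite G) (r : Fin 4 → G),
      IsStringC r ∧ HasType r p q p ∧ IsSelfDual r) ↔ 2 ≤ p ∧ 2 ≤ q := by
  constructor
  · rintro ⟨G, _, _, r, h1, ⟨h2, h3, -⟩, -⟩
    exact ⟨h2 ▸ order_ge h1 0 1 (by decide), h3 ▸ order_ge h1 1 2 (by decide)⟩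
  · rintro ⟨hp, hq⟩
    rcases Nat.even_or_odd p with he | ho
    · obtain ⟨m, hm⟩ := he
      have hm2 : p = 2 * m := by omega
      rw [hm2]
      exact exists_even m q (by omega) hq
    · have hp3 : 3 ≤ p := by
        obtain ⟨k, hk⟩ := ho
        omega
      rcases Nat.even_or_odd q with he | hoq
      · obtain ⟨m, hm⟩ := he
        have hm2 : q = 2 * m := by omega
        rcases Nat.even_or_odd m with hme | hmo
        · obtain ⟨k, hk⟩ := hme
          exact exists_linear hp3 ho (by omega) (Or.inr ⟨k, by omega⟩)
        · rw [hm2]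
          exact exists_mixed hp3 ho hmo
      · have hq3 : 3 ≤ q := by
          obtain ⟨k, hk⟩ := hoq
          omega
        exact exists_linear hp3 ho hq3 (Or.inl hoq)

end Pool.Agent.Results.MP_4f2bc5_co.SelfDualTypes
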